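import Pool.Agent.Helper867_EX.Core

/-!
# External products of Albanese kernels
-/

set_option autoImplicit false

open CategoryTheory AlgebraicGeometry

universe u v w

namespace Pool.Agent.Helper867_EX

open Pool.Agent.H914 Pool.Agent.H914.VarClass Pool.Agent.H914.VarClass.Obj Pool.Agent.W492.BB
  Pool.Agent.W550.Corr Pool.Agent.TH133 Pool.Agent.Y152.AS Pool.Agent.TH829.Kim
  Pool.Agent.R904.CM Pool.Agent.Helper867_CM
open Pool.Agent.R904.Voi (vl pull_vl vl_univ vl_mem vl_add vl_sub vl_smul vl_pull vl_fst vl_snd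
  vl_tp vl_comp pull_act ext_vl)

set_option linter.unusedSectionVars false

variable {k : Type u} [Field k] {𝒱 : VarClass k} {C : TheoryData.{u, v, 0} 𝒱 ℚ}
  [hC : IsChowProj C] {K : Type w} [Field K] {H : WeilTheoryData.{u, v, w} C K}
  [hH : IsWeilProj H] {E : 𝒱.Obj} [GroupLaw E] {θ : C.A E}
  {W X Y Y' Z R D D' B S T V S₀ S₁ S₂ : 𝒱.Obj} {u : E ⟶ E} {d : ℕ}

/-! ### Operations -/

lemma ext_add_right' (x : C.A X) (y z : C.A Y) : C.ext x (y + z) = C.ext x y + C.ext x z := by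
  rw [TheoryData.ext, map_add, mul_add]; rfl

lemma ext_smul_right' (q : ℚ) (x : C.A X) (y : C.A Y) : C.ext x (q • y) = q • C.ext x y := by
  rw [TheoryData.ext, map_smul, mul_smul_comm]; rfl

lemma ext_smul_left' (q : ℚ) (x : C.A X) (y : C.A Y) : C.ext (q • x) y = q • C.ext x y := by
  rw [TheoryData.ext, map_smul, smul_mul_assoc]; rfl

lemma ext_add_left' (x y : C.A X) (z : C.A Y) : C.ext (x + y) z = C.ext x z + C.ext y z := by
  rw [TheoryData.ext, map_add, add_mul]; rfl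

lemma ext_neg_right' (x : C.A X) (y : C.A Y) : C.ext x (-y) = -C.ext x y := by
  rw [TheoryData.ext, map_neg, mul_neg]; rfl

lemma right_op (Γ : C.A (X.prod Y)) {a : C.A Z} {a' : C.A Z} {b b' : C.A X}
    (h : C.ext a b = C.ext a' b') : C.ext a (C.act Γ b) = C.ext a' (C.act Γ b') := by
  rw [← C.extR_ext Γ (fun c => ch_comm C _ _), h, C.extR_ext Γ (fun c => ch_comm C _ _)]

lemma left_op (Γ : C.A (X.prod Y)) {a a' : C.A X} {b b' : C.A Z}
    (h : C.ext a b = C.ext a' b') : C.ext (C.act Γ a) b = C.ext (C.act Γ a') b' := by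
  rw [← C.extL_ext Γ, h, C.extL_ext Γ]

lemma ext_zero_right (a : C.A X) : C.ext a (0 : C.A Y) = 0 := by
  rw [TheoryData.ext, map_zero, mul_zero]

lemma ext_zero_left (a : C.A Y) : C.ext (0 : C.A X) a = 0 := by
  rw [TheoryData.ext, map_zero, zero_mul]

lemma right_zero (Γ : C.A (X.prod Y)) {a : C.A Z} {b : C.A X}
    (h : C.ext a b = 0) : C.ext a (C.act Γ b) = 0 := by
  have h1 := right_op Γ (h.trans (ext_zero_right a).symm)
  rw [h1, C.act_map_zero, ext_zero_right]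

lemma left_zero (Γ : C.A (X.prod Y)) {a : C.A X} {b : C.A Z}
    (h : C.ext a b = 0) : C.ext (C.act Γ a) b = 0 := by
  have h1 := left_op Γ (h.trans (ext_zero_left b).symm)
  rw [h1, C.act_map_zero, ext_zero_left]

/-! ### Additive zero-cycles -/

/-- Additive zero-cycles. -/
structure AddZ (a : C.A (E.prod Y)) : Prop where
  mem : a ∈ C.gr (E.prod Y) (Y.dim + 1)
  add : AddCl a

lemma AddZ.pull_u (h : Setup θ u d) {a : C.A (E.prod Y)} (ha : AddZ a) :
    AddZ (C.pull (prodMap u (𝟙 Y)) a) where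
  mem := C.pull_mem _ ha.mem
  add := by
    intro W x x' t
    have e1 : ∀ x : W ⟶ E, Obj.lift x t ≫ prodMap u (𝟙 Y) = Obj.lift (x ≫ u) t := by
      intro x
      apply prod_ext <;> simp
    rw [← C.pull_comp, ← C.pull_comp, ← C.pull_comp, e1, e1, e1, h.hom, ha.add]

lemma AddZ.u_sq (h : Setup θ u d) {a : C.A (E.prod Y)} (ha : AddZ a) :
    C.pull (prodMap u (𝟙 Y)) (C.pull (prodMap u (𝟙 Y)) a) = -((d : ℚ) • a) := by
  have key : ∀ {W : 𝒱.Obj} (x : W ⟶ E) (t : W ⟶ Y), C.pull (Obj.lift ((x ≫ u) ≫ u) t) a =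
      -((d : ℚ) • C.pull (Obj.lift x t) a) := by
    intro W x t
    let f : (W ⟶ E) →+ C.A W := AddMonoidHom.mk' (fun x => C.pull (Obj.lift x t) a)
      (fun x x' => ha.add x x' t)
    have h1 : f ((x ≫ u) ≫ u) = -((d : ℚ) • f x) := by
      rw [h.comp_uu, map_neg, map_zsmul, ← Int.cast_smul_eq_zsmul ℚ, Int.cast_natCast]
    exact h1
  have h2 := key (fst E Y) (snd E Y)
  rw [← C.pull_comp]
  have e1 : prodMap u (𝟙 Y) ≫ prodMap u (𝟙 Y) = Obj.lift ((fst E Y ≫ u) ≫ u) (snd E Y) := by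
    apply prod_ext <;> simp
  rw [e1, h2, lift_eta, C.pull_id]

lemma AddZ.move (h : Setup θ u d) {a : C.A (E.prod Y)} {b : C.A (E.prod Y')} (ha : AddZ a)
    (hb : AddZ b) :
    C.ext (C.pull (prodMap u (𝟙 Y)) a) b = C.ext a (C.pull (prodMap u (𝟙 Y')) b) :=
  Helper867_EX.move h.point h.cube h.dim_eq u ha.add hb.add ha.mem hb.mem (ha.pull_u h).add

lemma addZ_of_prim (h : Setup θ u d) {γ : C.A (E.prod Y)} (hγ : Prim C E Y γ) : AddZ γ :=
  ⟨hγ.1, addCl_of_act h.cube (act_MM_prim h.point h.cube h.deg h.dim_eq hγ)⟩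

lemma addZ_of_albKer (h : Setup θ u d) (hD : D.dim = 1) {α : C.A (E.prod D)}
    (hα : α ∈ albKer C (E.prod D)) : AddZ α := by
  refine ⟨?_, addCl_of_act h.cube (h.act_M hD hα)⟩
  have h1 := hα.1
  have e : (((E.prod D).dim : ℕ) : ℤ) = (D.dim : ℤ) + 1 := by
    rw [dim_prod, h.dim_eq]
    push_cast
    ring
  exact deg_cast e h1

/-! ### Null correspondences -/

variable (ν : NullIdeal H E)

lemma kill_ED (h : Setup θ u d) (hpic : PicardOfProducts H) (hD : D.dim = 1)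
    (hD' : D'.dim = 1) {ζ : C.A ((E.prod D).prod (E.prod D'))}
    (hζ : ζ ∈ C.gr ((E.prod D).prod (E.prod D')) 2) (hd : ν.null ζ) {α : C.A (E.prod D)}
    (hα : α ∈ albKer C (E.prod D)) {γ : C.A (E.prod Y)} (hγ : AddZ γ) :
    C.ext γ (C.act ζ α) = 0 := by
  have e : (E.prod D).dim = 2 := by rw [dim_prod, h.dim_eq, hD]
  have e' : (E.prod D').dim = 2 := by rw [dim_prod, h.dim_eq, hD']
  have a1 := anti_null ν h hpic hD hD' hζ hd hα
  have zα := addZ_of_albKer h hD hα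
  have zζ := addZ_of_albKer h hD' (act_albKer e e' hζ hα)
  have key : ∀ {γ : C.A (E.prod Y)}, AddZ γ →
      C.ext (C.pull (prodMap u (𝟙 Y)) γ) (C.act ζ α) = 0 := by
    intro γ hγ
    have h1 := hγ.move h zζ
    have h2 := right_op ζ (hγ.move h zα)
    rw [a1, ext_neg_right', ← h1] at h2
    have h3 : (2 : ℚ) • C.ext (C.pull (prodMap u (𝟙 Y)) γ) (C.act ζ α) = 0 := by
      rw [two_smul]
      nth_rw 1 [h2]
      exact neg_add_cancel _
    exact (smul_eq_zero.1 h3).resolve_left two_ne_zero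
  have h3 := key (hγ.pull_u h)
  rw [hγ.u_sq h, ← neg_smul, ext_smul_left'] at h3
  exact (smul_eq_zero.1 h3).resolve_left (neg_ne_zero.2 h.ne)

/-- The exterior product with the image of a null correspondence. -/
theorem kill_S (s₀ : Domination C E S₀) (s₁ : Domination C E S₁) (h : Setup θ u d)
    (hpic : PicardOfProducts H) {n : C.A (S₀.prod S₁)} (hn : n ∈ C.gr (S₀.prod S₁) 2)
    (hd : ν.null n) {β : C.A S₀} (hβ : β ∈ albKer C S₀) {γ : C.A (E.prod Y)} (hγ : AddZ γ) :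
    C.ext γ (C.act n β) = 0 := by
  set ζ := C.comp s₀.b (C.comp n (tp C s₁.b)) with hζ
  have mζ : ζ ∈ C.gr ((E.prod s₀.D).prod (E.prod s₁.D)) 2 :=
    comp_mem2 s₀.dim_S (s₀.dim_ED h) s₀.deg (comp_mem2 s₁.dim_S s₀.dim_S hn s₁.tp_deg)
  have dζ : ν.null ζ := ν.comp_left (ν.comp_right hd (s₁.dim_ED h) s₁.tp_deg)
  have h1 := kill_ED ν h hpic s₀.dim_D s₁.dim_D mζ dζ (s₀.back h hβ) hγ
  have h2 := right_zero s₁.b h1
  rw [hζ, C.act_comp, C.act_comp, s₀.dom' hβ, act_map_smul, act_map_smul, act_map_smul,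
    s₁.dom' (act_albKer s₀.dim_S s₁.dim_S hn hβ), smul_smul, ext_smul_right'] at h2
  exact (smul_eq_zero.1 h2).resolve_left (mul_ne_zero s₀.ne s₁.ne)

/-- The exterior product with the image of a null correspondence, for two surfaces. -/
theorem kill_SS (s₀ : Domination C E S₀) (s₁ : Domination C E S₁) (s₂ : Domination C E S₂)
    (h : Setup θ u d) (hpic : PicardOfProducts H) {n : C.A (S₀.prod S₁)}
    (hn : n ∈ C.gr (S₀.prod S₁) 2) (hd : ν.null n) {β : C.A S₀} (hβ : β ∈ albKer C S₀)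
    {γ : C.A S₂} (hγ : γ ∈ albKer C S₂) : C.ext γ (C.act n β) = 0 := by
  have h1 := kill_S ν s₀ s₁ h hpic hn hd hβ (addZ_of_albKer h s₂.dim_D (s₂.back h hγ))
  have h2 := left_zero s₂.b h1
  rw [s₂.dom' hγ, ext_smul_left'] at h2
  exact (smul_eq_zero.1 h2).resolve_left s₂.ne

lemma ext_swap_zero {a : C.A X} {b : C.A Y} (h : C.ext a b = 0) : C.ext b a = 0 := by
  have h1 : tp C (C.ext a b) = C.ext b a := tp_ext a b
  rw [← h1, h, tp, map_zero]

/-- The complex multiplications can be moved. -/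
theorem balanced (s₀ : Domination C E S₀) (s₁ : Domination C E S₁) (h : Setup θ u d)
    {α : C.A S₀} (hα : α ∈ albKer C S₀) {β : C.A S₁} (hβ : β ∈ albKer C S₁) :
    C.ext (C.act (s₀.cm u) α) β = C.ext α (C.act (s₁.cm u) β) := by
  have h1 := (addZ_of_albKer h s₀.dim_D (s₀.back h hα)).move h
    (addZ_of_albKer h s₁.dim_D (s₁.back h hβ))
  have h2 := left_op s₀.b (right_op s₁.b h1)
  rw [s₀.dom' hα, s₁.dom' hβ, ext_smul_left', ext_smul_right'] at h2
  rw [s₀.act_cm, s₁.act_cm, ext_smul_left', ext_smul_right']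
  have n0 := s₀.ne
  have n1 := s₁.ne
  generalize C.ext (C.act s₀.b (C.pull (prodMap u (𝟙 s₀.D)) (C.act (tp C s₀.b) α))) β = p
    at h2 ⊢
  generalize C.ext α (C.act s₁.b (C.pull (prodMap u (𝟙 s₁.D)) (C.act (tp C s₁.b) β))) = q
    at h2 ⊢
  have h3 := congrArg (fun z => (s₀.N⁻¹ * s₁.N⁻¹) • z) h2
  simp only [smul_smul] at h3
  rw [mul_assoc, inv_mul_cancel₀ n1, mul_one, mul_comm s₀.N⁻¹, mul_assoc, inv_mul_cancel₀ n0,
    mul_one] at h3
  exact h3

end Pool.Agent.Helper867_EX
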