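import Pool.Agent.Y152.AS.Gen
import Pool.Agent.TH829.Kim.Pts
import Pool.Agent.Helper867_EX.Main
import Pool.Agent.Helper867_NR.Main

/-!
# External products of zero-cycles on abelian surfaces
-/

set_option autoImplicit false

open CategoryTheory AlgebraicGeometry

universe u v w

namespace Pool.Agent.Helper867_EX.Ab

open Pool.Agent.H914 Pool.Agent.H914.VarClass Pool.Agent.H914.VarClass.Obj Pool.Agent.W492.BB
  Pool.Agent.W550.Corr Pool.Agent.TH133 Pool.Agent.Y152.AS

set_option linter.unusedSectionVars false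

variable {k : Type u} [Field k] {𝒱 : VarClass k} {C : TheoryData.{u, v, 0} 𝒱 ℚ}
  [hC : IsChowProj C] {K : Type w} [Field K] {H : WeilTheoryData.{u, v, w} C K}
  [hH : IsWeilProj H] {A : 𝒱.Obj} [GroupLaw A] {θ : C.A A}
  {W X Y Z R S T : 𝒱.Obj}

section point

variable {q : ℚ} (hp : Point θ q) (hc : Cube θ)
include hp hc

/-- There are no zero-cycles of weight one. -/
lemma weight_one (hd : A.dim = 2) (hθ : C.Deg 1 θ) {ω : C.A (A.prod R)}
    (hω : ω ∈ C.gr (A.prod R) (R.dim + 2)) (h2 : C.pull (mu A R 2) ω = (2 : ℚ) • ω) : ω = 0 := by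
  have h1 : ω = C.pull (Obj.lift (fst A R) (snd A R)) ω := by rw [lift_eta, C.pull_id]
  have hz := pull_mu_prodMap ω (snd A R) h2
  rw [h1, eval_eq hp, sq_expand hc]
  have k1 : C.push (snd A (A.prod R)) ((eC θ (fst A (A.prod R)) * eC θ (fst A (A.prod R))) *
      C.pull (prodMap (𝟙 A) (snd A R)) ω) = 0 := by
    refine kill_aux hp hc (d := 16) hz ?_ (by norm_num)
    rw [map_mul, mu_e hp hc, smul_mul_smul_comm]; norm_num
  have k0 : eC θ (fst A (A.prod R)) * C.pull (prodMap (𝟙 A) (snd A R)) ω = 0 := by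
    have e1 : eC θ (fst A (A.prod R)) =
        C.pull (prodMap (𝟙 A) (snd A R)) (C.pull (fst A R) θ) := by
      rw [eC, ← C.pull_comp, prodMap_fst, Category.comp_id]
    have e2 : C.pull (fst A R) θ * ω = 0 := by
      refine hC.gr_top _ _ _ (C.mul_mem (C.pull_mem _ hθ) hω) ?_
      rw [dim_prod, hd]
      push_cast
      linarith
    rw [e1, ← map_mul, e2, map_zero]
  have k2 : C.push (snd A (A.prod R)) ((eC θ (fst A (A.prod R)) *
      bC θ (fst A (A.prod R)) (snd A (A.prod R) ≫ fst A R)) *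
      C.pull (prodMap (𝟙 A) (snd A R)) ω) = 0 := by
    rw [ch_comm C (eC θ (fst A (A.prod R))), mul_assoc, k0, mul_zero, map_zero]
  have k3 : C.push (snd A (A.prod R)) ((bC θ (fst A (A.prod R)) (snd A (A.prod R) ≫ fst A R) *
      bC θ (fst A (A.prod R)) (snd A (A.prod R) ≫ fst A R) +
        (2 : ℚ) • (eC θ (fst A (A.prod R)) * eC θ (snd A (A.prod R) ≫ fst A R))) *
      C.pull (prodMap (𝟙 A) (snd A R)) ω) = 0 := by
    refine kill_aux hp hc (d := 4) hz ?_ (by norm_num)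
    rw [map_add, map_smul, map_mul, map_mul, mu_r hp hc, mu_b hp hc, mu_e hp hc,
      smul_mul_smul_comm, smul_mul_smul_comm, smul_add, smul_comm (2 : ℚ)]; norm_num
  have k4 : C.push (snd A (A.prod R)) ((bC θ (fst A (A.prod R)) (snd A (A.prod R) ≫ fst A R) *
      eC θ (snd A (A.prod R) ≫ fst A R)) * C.pull (prodMap (𝟙 A) (snd A R)) ω) = 0 := by
    refine kill_aux hp hc (d := 2) hz ?_ (by norm_num)
    rw [map_mul, mu_r hp hc, mu_b hp hc, smul_mul_smul_comm]; norm_num
  have k5 : C.push (snd A (A.prod R)) ((eC θ (snd A (A.prod R) ≫ fst A R) *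
      eC θ (snd A (A.prod R) ≫ fst A R)) * C.pull (prodMap (𝟙 A) (snd A R)) ω) = 0 := by
    refine kill_aux hp hc (d := 1) hz ?_ (by norm_num)
    rw [map_mul, mu_r hp hc, smul_mul_smul_comm]; norm_num
  rw [add_mul, map_add, k5, add_zero, add_mul, map_add, smul_mul_assoc, map_smul, k4, smul_zero,
    add_zero, add_mul, map_add, k3, add_zero, add_mul, map_add, k1, smul_mul_assoc, map_smul, k2,
    smul_zero, zero_add, smul_zero]

/-- Zero-cycles in the Albanese kernel have weight two. -/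
lemma wt (hd : A.dim = 2) (hθ : C.Deg 1 θ) {α : C.A A} (hα : α ∈ albKer C A) (x : X ⟶ A)
    (n : ℤ) : C.pull (n • x) α = ((n : ℚ) ^ 2) • C.pull x α := by
  have h1 : C.pull (n • 𝟙 A) α = ((n : ℚ) ^ 2) • α := by
    have h2 := act_pr hc hd hθ hp hα
    nth_rw 1 [← h2]
    rw [R904.CM.pull_act2, pr_right hc, Y152.AS.act_smul, h2]
  have e1 : n • x = x ≫ (n • 𝟙 A) := by rw [comp_zsmul', Category.comp_id]
  rw [e1, C.pull_comp, h1, map_smul]

lemma ev_ext (α β : C.A A) (x y : X ⟶ A) : ev (C.ext α β) x y = C.pull x α * C.pull y β :=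
  vl_ext α β x y

lemma ty_ext (hd : A.dim = 2) (hθ : C.Deg 1 θ) {α β : C.A A} (hα : α ∈ albKer C A)
    (hβ : β ∈ albKer C A) : Ty (C.ext α β) := by
  intro X x y n
  rw [ev_ext hp hc, ev_ext hp hc, ev_ext hp hc, wt hp hc hd hθ hα, wt hp hc hd hθ hβ,
    smul_mul_assoc, mul_smul_comm]
  exact ⟨rfl, rfl⟩

lemma shift (hd : A.dim = 2) (hθ : C.Deg 1 θ) {α β : C.A A} (hα : α ∈ albKer C A)
    (hβ : β ∈ albKer C A) (x y : X ⟶ A) :
    ev (C.ext α β) (x + y) y = ev (C.ext α β) x y := by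
  have h := ty_ext hp hc hd hθ hα hβ
  have hα2 : α ∈ C.gr A 2 := by
    have := hα.1
    rwa [hd] at this
  have hβ2 : β ∈ C.gr A 2 := by
    have := hβ.1
    rwa [hd] at this
  have hζ : C.ext α β ∈ C.gr (A.prod A) (2 + 2) := ext_mem' hα2 hβ2
  have diag : ∀ {X : 𝒱.Obj} (x : X ⟶ A), ev (C.ext α β) x x = 0 := by
    intro X x
    have h0 : α * β = 0 := hC.gr_top A _ _ (C.mul_mem hα2 hβ2) (by rw [hd]; norm_num)
    rw [ev_ext hp hc, ← map_mul, h0, map_zero]
  set ζ := C.ext α β with hζdef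
  have hm : ∀ {X : 𝒱.Obj} (x y : X ⟶ A), mid θ q ζ x y = ev ζ (x + y) y - ev ζ x y := by
    intro X x y
    rw [mid_eq hp hc h, diag, sub_zero]
  have hs : ∀ {X : 𝒱.Obj} (x y : X ⟶ A) (t : ℤ), ev ζ (t • x + y) y =
      ((t : ℚ) ^ 2) • ev ζ x y + (t : ℚ) • mid θ q ζ x y := by
    intro X x y t
    rw [ev_shear hp hc h, diag, add_zero]
  have w1 : ∀ {X : 𝒱.Obj} (x y : X ⟶ A) (n : ℤ), mid θ q ζ (n • x) y = (n : ℚ) • mid θ q ζ x y := by
    intro X x y n
    rw [hm (n • x) y, hs, (h _ _ _ _).1]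
    abel
  have nat : ∀ {X : 𝒱.Obj} (x y : X ⟶ A), ev (mid θ q ζ (fst A A) (snd A A)) x y =
      mid θ q ζ x y := by
    intro X x y
    rw [hm (fst A A), hm x, ev, map_sub, pull_ev, pull_ev, comp_add', lift_fst, lift_snd]
  have h0 : mid θ q ζ (fst A A) (snd A A) = 0 := by
    refine weight_one hp hc hd hθ ?_ ?_
    · rw [hm, hd]
      exact Submodule.sub_mem _ (C.pull_mem _ hζ) (C.pull_mem _ hζ)
    · apply pull_mu_eq
      rw [nat, nat, w1]
      norm_num
  have h1 := hm x y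
  rw [← nat, h0, ev, map_zero] at h1
  exact (sub_eq_zero.1 h1.symm)

/-- Voisin: the exterior product is commutative on the Albanese kernel of an abelian surface. -/
theorem ext_comm (hd : A.dim = 2) (hθ : C.Deg 1 θ) {α β : C.A A} (hα : α ∈ albKer C A)
    (hβ : β ∈ albKer C A) : C.ext β α = C.ext α β := by
  have e0 : ∀ {X : 𝒱.Obj} (x y : X ⟶ A), ev (C.ext β α) y x = ev (C.ext α β) x y := by
    intro X x y
    rw [ev_ext hp hc, ev_ext hp hc, ch_comm C]
  have right : ∀ {X : 𝒱.Obj} (x y : X ⟶ A), ev (C.ext α β) x (y + x) = ev (C.ext α β) x y := by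
    intro X x y
    rw [← e0, ← e0, shift hp hc hd hθ hβ hα]
  have s1 : ev (C.ext α β) (fst A A) (snd A A) =
      ev (C.ext α β) (fst A A + snd A A) (snd A A) := (shift hp hc hd hθ hα hβ _ _).symm
  have s2 : ev (C.ext α β) (fst A A + snd A A) (snd A A) =
      ev (C.ext α β) (fst A A + snd A A) (-fst A A) := by
    rw [← right (fst A A + snd A A) (-fst A A)]
    congr 1
    abel
  have s3 : ev (C.ext α β) (fst A A + snd A A) (-fst A A) =
      ev (C.ext α β) (snd A A) (-fst A A) := by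
    rw [← shift hp hc hd hθ hα hβ (fst A A + snd A A) (-fst A A)]
    congr 1
    abel
  have s4 : ev (C.ext α β) (snd A A) (-fst A A) = ev (C.ext α β) (snd A A) (fst A A) := by
    have := (ty_ext hp hc hd hθ hα hβ _ (snd A A) (fst A A) (-1)).2
    rw [neg_smul, one_smul] at this
    rw [this]
    norm_num
  have f1 : C.ext β α = ev (C.ext α β) (snd A A) (fst A A) := by
    rw [← e0, ev_self]
  rw [f1]
  exact (s1.trans (s2.trans (s3.trans s4))).symm.trans (ev_self _)

end point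

/-! ### Surfaces dominated by an abelian surface -/

/-- The exterior product is commutative on the Albanese kernel of a dominated surface. -/
lemma ext_comm_dom (hA : IsAbelianSurface H A θ) {b : C.A (A.prod S)} {N : ℚ}
    (hb : C.Deg 2 b) (hS : S.dim = 2) (hN : N ≠ 0)
    (hdom : ∀ α : C.A S, InAlbKer C α → C.act b (C.act (tp C b) α) = N • α) {α β : C.A S}
    (hα : α ∈ albKer C S) (hβ : β ∈ albKer C S) : C.ext β α = C.ext α β := by
  obtain ⟨q, hp⟩ := hA.point
  have hc : Cube θ := hA.cube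
  have h1 := ext_comm hp hc hA.dim_eq hA.deg
    (act_albKer hS hA.dim_eq (tp_mem C hb) hα) (act_albKer hS hA.dim_eq (tp_mem C hb) hβ)
  have h2 := left_op b (right_op b h1)
  rw [hdom _ (inAlbKer_iff.2 hα), hdom _ (inAlbKer_iff.2 hβ), ext_smul_left', ext_smul_right',
    ext_smul_left', ext_smul_right', smul_smul, smul_smul] at h2
  exact smul_right_injective _ (mul_ne_zero hN hN) h2

/-- All self-correspondences can be moved. -/
lemma move_all (hS : S.dim = 2) (hcomm : ∀ {α β : C.A S}, α ∈ albKer C S → β ∈ albKer C S →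
      C.ext β α = C.ext α β) {Z : C.A (S.prod S)} (hZ : Z ∈ C.gr (S.prod S) 2) {α β : C.A S}
    (hα : α ∈ albKer C S) (hβ : β ∈ albKer C S) :
    C.ext (C.act Z α) β = C.ext α (C.act Z β) := by
  rw [hcomm hβ (act_albKer hS hS hZ hα)]
  exact right_op Z (hcomm hα hβ)

lemma move_comm (hS : S.dim = 2) (hcomm : ∀ {α β : C.A S}, α ∈ albKer C S → β ∈ albKer C S →
      C.ext β α = C.ext α β) {Z W : C.A (S.prod S)} (hZ : Z ∈ C.gr (S.prod S) 2)
    (hW : W ∈ C.gr (S.prod S) 2) {α β : C.A S} (hα : α ∈ albKer C S) (hβ : β ∈ albKer C S) :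
    C.ext α (C.act Z (C.act W β)) = C.ext α (C.act W (C.act Z β)) := by
  have h1 := move_all hS hcomm (comp_mem2 hS hS hZ hW) hα hβ
  rw [C.act_comp, C.act_comp] at h1
  rw [← move_all hS hcomm hZ hα (act_albKer hS hS hW hβ),
    ← move_all hS hcomm hW (act_albKer hS hS hZ hα) hβ, h1]

open Pool.Agent.Helper867_NR in
/-- Null correspondences are killed by exterior products. -/
lemma kill (hS : S.dim = 2) (hcomm : ∀ {α β : C.A S}, α ∈ albKer C S → β ∈ albKer C S →
      C.ext β α = C.ext α β) {Z : C.A (S.prod S)} (c : Ctx hS H Z) {G : C.A (S.prod S)}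
    (hG : G ∈ C.gr (S.prod S) 2) (hd : IsHomDegenerate H G) {α β : C.A S}
    (hα : α ∈ albKer C S) (hβ : β ∈ albKer C S) : C.ext α (C.act G β) = 0 := by
  have mD := anti_mem c.mem
  have key : ∀ {α : C.A S}, α ∈ albKer C S →
      C.ext α (C.act (antisym C Z) (C.act G β)) = 0 := by
    intro α hα
    have h1 := move_comm hS hcomm c.mem hG hα hβ
    have h2 := c.anti hG hd c.mem β (inAlbKer_iff.2 hβ)
    rw [C.act_comp, C.act_comp] at h2
    rw [h2] at h1
    rw [antisym, C.act_sub, sub_eq_add_neg, ext_add_right', ext_neg_right', h1,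
      add_neg_cancel]
  obtain ⟨v, ⟨V, hV, rfl⟩, hv1, -⟩ := c.unit
  have hV1 : V ∈ C.gr (S.prod S) 2 := hV
  have h3 : C.act (antisym C Z) (C.act V α) = α :=
    congrArg Subtype.val (LinearMap.congr_fun (congrArg (fun x : PP C S => x.1) hv1) ⟨α, hα⟩)
  have h4 := key (act_albKer hS hS hV1 hα)
  rw [← move_all hS hcomm mD (act_albKer hS hS hV1 hα) (act_albKer hS hS hG hβ), h3] at h4
  exact h4

open Pool.Agent.Helper867_NR in
theorem kill_dom (hA : IsAbelianSurface H A θ) (hE : EndIsField H A) {Z : C.A (A.prod A)}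
    (hZ : C.Deg 2 Z) (hnd : ¬ IsHomDegenerate H (antisym C Z)) {R S T : 𝒱.Obj}
    (hR : IsDominatedBy C A R) (hS : IsDominatedBy C A S) (hT : IsDominatedBy C A T)
    {n : C.A (S.prod T)} (hn : C.Deg 2 n) (hd : IsHomDegenerate H n) {β : C.A S}
    (hβ : InAlbKer C β) {γ : C.A R} (hγ : InAlbKer C γ) : C.ext γ (C.act n β) = 0 := by
  have hdim := hA.dim_eq
  have h := setup hA hdim (dg C A) (dg_mem2 hdim) one_ne_zero (fun α _ => by
    rw [tp_dg, act_dg, act_dg, one_smul]) hE.fieldMod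
  have c : Ctx hdim H Z := ⟨h, hE, hZ, hnd⟩
  obtain ⟨q, hp⟩ := hA.point
  have hc : Cube θ := hA.cube
  obtain ⟨dR, bR, NR, mR, zR, domR⟩ := hR
  obtain ⟨dS, bS, NS, mS, zS, domS⟩ := hS
  obtain ⟨dT, bT, NT, mT, zT, domT⟩ := hT
  have hn' : n ∈ C.gr (S.prod T) 2 := hn
  set ζ := C.comp bS (C.comp n (tp C bT)) with hζ
  have mζ : ζ ∈ C.gr (A.prod A) 2 := comp_mem2 dS hdim mS (comp_mem2 dT dS hn' (tp_mem C mT))
  have dζ : IsHomDegenerate H ζ := isHomDegenerate_of
    (HomDeg.comp_left hdim dS (HomDeg.comp_right dT hd.homDeg (tp_mem C mT)) mS)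
  have h1 := kill hdim (fun hα hβ => ext_comm hp hc hdim hA.deg hα hβ) c mζ dζ
    (act_albKer dR hdim (tp_mem C mR) (inAlbKer_iff.1 hγ))
    (act_albKer dS hdim (tp_mem C mS) (inAlbKer_iff.1 hβ))
  have h2 := left_zero bR (right_zero bT h1)
  rw [hζ, C.act_comp, C.act_comp, domS _ hβ, act_map_smul, act_map_smul, act_map_smul,
    domT _ (inAlbKer_iff.2 (act_albKer dS dT hn' (inAlbKer_iff.1 hβ))), domR _ hγ,
    ext_smul_left', smul_smul, ext_smul_right', smul_smul] at h2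
  exact (smul_eq_zero.1 h2).resolve_left (mul_ne_zero zR (mul_ne_zero zS zT))

end Pool.Agent.Helper867_EX.Ab
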