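import Pool.Agent.Y152.AS.Defs2

/-!
# Exterior products of zero-cycles on surfaces: definitions
-/

open CategoryTheory AlgebraicGeometry

universe u v w

namespace Pool.Agent.Helper867_EX.AbSt

open Pool.Agent.H914 Pool.Agent.H914.VarClass Pool.Agent.H914.VarClass.Obj Pool.Agent.W492.BB
  Pool.Agent.TH133 Pool.Agent.Y152.AS

variable {k : Type u} [Field k] {𝒱 : VarClass k} (C : TheoryData.{u, v, 0} 𝒱 ℚ)

/-- `β × α = α × β` in `CH_0(X × X)_ℚ` for all `α`, `β` in the Albanese kernel of the surface `X` (the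
conjecture of Voisin for surfaces with `p_g = 1`). -/
def ExtComm (X : 𝒱.Obj) : Prop :=
  ∀ α β : C.A X, InAlbKer C α → InAlbKer C β → C.ext β α = C.ext α β

/-- `(Z_* α) × β = α × (Z_* β)` for all `Z ∈ CH^2(X × X)_ℚ` and all `α`, `β` in the Albanese kernel. -/
def Balanced (X : 𝒱.Obj) : Prop :=
  ∀ Z : C.A (X.prod X), C.Deg 2 Z → ∀ α β : C.A X, InAlbKer C α → InAlbKer C β →
    C.ext (C.act Z α) β = C.ext α (C.act Z β)

/-- `α × (Z_* W_* β) = α × (W_* Z_* β)` for all `Z`, `W ∈ CH^2(X × X)_ℚ` and all `α`, `β` in the Albanese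
kernel. -/
def CommutatorsKilled (X : 𝒱.Obj) : Prop :=
  ∀ Z W : C.A (X.prod X), C.Deg 2 Z → C.Deg 2 W → ∀ α β : C.A X, InAlbKer C α → InAlbKer C β →
    C.ext α (C.act Z (C.act W β)) = C.ext α (C.act W (C.act Z β))

/-- `γ × Z_* β = γ × Z'_* β` in `CH_0(R × T)_ℚ` for all `β ∈ F^2 CH_0(S)_ℚ` and `γ ∈ F^2 CH_0(R)_ℚ`, where
`Z`, `Z'` are correspondences from `S` to `T`. -/
def SameProducts (R : 𝒱.Obj) {S T : 𝒱.Obj} (Z Z' : C.A (S.prod T)) : Prop :=
  ∀ β : C.A S, InAlbKer C β → ∀ γ : C.A R, InAlbKer C γ →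
    C.ext γ (C.act Z β) = C.ext γ (C.act Z' β)

/-- The self-correspondence `Z` of `X` is not real: the antisymmetric correspondence `Z - ᵗZ` is not
homologically equivalent to a degenerate one (over `ℂ`, for `p_g = 1`: `Z` acts on the line `H^{2,0}(X)`
as multiplication by a number which is not real). -/
def IsNonReal {C : TheoryData.{u, v, 0} 𝒱 ℚ} {K : Type w} [Field K]
    (H : WeilTheoryData.{u, v, w} C K) {X : 𝒱.Obj} (Z : C.A (X.prod X)) : Prop :=
  C.Deg 2 Z ∧ ¬ IsHomDegenerate H (antisym C Z)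

end Pool.Agent.Helper867_EX.AbSt
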