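import Pool.Agent.Helper867_EX.Ab
import Pool.Agent.Helper867_EX.AbDefs

/-!
# Exterior products on surfaces dominated by an abelian surface: the theorem
-/

set_option autoImplicit false

open CategoryTheory AlgebraicGeometry

universe u v w

namespace Pool.Agent.Helper867_EX.Ab

open Pool.Agent.H914 Pool.Agent.H914.VarClass Pool.Agent.H914.VarClass.Obj Pool.Agent.W492.BB
  Pool.Agent.W550.Corr Pool.Agent.TH133 Pool.Agent.Y152.AS Pool.Agent.Helper867_EX.AbSt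

theorem ab_main {k : Type u} [Field k] {𝒱 : VarClass k} {C : TheoryData.{u, v, 0} 𝒱 ℚ}
    [IsChowProj C] {K : Type w} [Field K] (H : WeilTheoryData.{u, v, w} C K) [IsWeilProj H]
    (A : 𝒱.Obj) [GroupLaw A] (θ : C.A A) (hA : IsAbelianSurface H A θ) (hE : EndIsField H A) :
    (∀ S : 𝒱.Obj, IsDominatedBy C A S → ExtComm C S) ∧
    (∀ S : 𝒱.Obj, S.dim = 2 → ExtComm C S → AbSt.Balanced C S ∧ CommutatorsKilled C S) ∧
    ∀ Z : C.A (A.prod A), IsNonReal H Z → ∀ R S T : 𝒱.Obj, IsDominatedBy C A R →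
      IsDominatedBy C A S → IsDominatedBy C A T → ∀ X X' : C.A (S.prod T), C.Deg 2 X →
        C.Deg 2 X' → IsHomDegenerate H (X - X') → AbSt.SameProducts C R X X' := by
  refine ⟨fun S hS α β hα hβ => ?_, fun S hS hcomm => ⟨fun Z hZ α β hα hβ => ?_,
    fun Z W hZ hW α β hα hβ => ?_⟩, fun Z hZ R S T hR hS hT X X' hX hX' hd β hβ γ hγ => ?_⟩
  · obtain ⟨dS, b, N, mb, hN, dom⟩ := hS
    exact ext_comm_dom hA mb dS hN dom (inAlbKer_iff.1 hα) (inAlbKer_iff.1 hβ)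
  · exact move_all hS (fun h1 h2 => hcomm _ _ (inAlbKer_iff.2 h1) (inAlbKer_iff.2 h2)) hZ
      (inAlbKer_iff.1 hα) (inAlbKer_iff.1 hβ)
  · exact move_comm hS (fun h1 h2 => hcomm _ _ (inAlbKer_iff.2 h1) (inAlbKer_iff.2 h2)) hZ hW
      (inAlbKer_iff.1 hα) (inAlbKer_iff.1 hβ)
  · have h1 := kill_dom hA hE hZ.1 hZ.2 hR hS hT (Submodule.sub_mem _ hX hX') hd hβ hγ
    rw [C.act_sub, sub_eq_add_neg, ext_add_right', ext_neg_right', ← sub_eq_add_neg,
      sub_eq_zero] at h1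
    exact h1

end Pool.Agent.Helper867_EX.Ab
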