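import Pool.Agent.Helper867_CM.Main

/-!
# External products with zero-cycles on products with an elliptic curve with complex multiplication
-/

set_option autoImplicit false

open CategoryTheory AlgebraicGeometry

universe u v w

namespace Pool.Agent.Helper867_EX

open Pool.Agent.H914 Pool.Agent.H914.VarClass Pool.Agent.H914.VarClass.Obj Pool.Agent.W492.BB
  Pool.Agent.W550.Corr Pool.Agent.TH133 Pool.Agent.Y152.AS Pool.Agent.TH829.Kim
  Pool.Agent.R904.CM Pool.Agent.Helper867_CM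
open Pool.Agent.R904.Voi (vl pull_vl vl_univ vl_mem vl_add vl_sub vl_smul vl_pull vl_fst vl_snd
  vl_tp vl_comp pull_act ext_vl)

set_option linter.unusedSectionVars false

variable {k : Type u} [Field k] {𝒱 : VarClass k} {C : TheoryData.{u, v, 0} 𝒱 ℚ}
  [hC : IsChowProj C] {K : Type w} [Field K] {H : WeilTheoryData.{u, v, w} C K}
  [hH : IsWeilProj H] {E : 𝒱.Obj} [GroupLaw E] {θ : C.A E}
  {W X Y Y' Z R D D' B S T V S₀ S₁ S₂ : 𝒱.Obj} {u : E ⟶ E} {d : ℕ}

lemma vl_ext (a : C.A X) (b : C.A Y) (x : W ⟶ X) (y : W ⟶ Y) :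
    vl C (C.ext a b) x y = C.pull x a * C.pull y b := by
  rw [vl, TheoryData.ext, map_mul, ← C.pull_comp, ← C.pull_comp, lift_fst, lift_snd]

/-- Zero-cycles on `E × Y` with push-forward zero on `Y`. -/
def Prim (C : TheoryData.{u, v, 0} 𝒱 ℚ) (E Y : 𝒱.Obj) (γ : C.A (E.prod Y)) : Prop :=
  γ ∈ C.gr (E.prod Y) (Y.dim + 1) ∧ C.push (snd E Y) γ = 0

/-- Classes on `E × Y` which are additive in the point of `E`. -/
def AddCl (a : C.A (E.prod Y)) : Prop := ∀ {W : 𝒱.Obj} (x x' : W ⟶ E) (t : W ⟶ Y),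
  C.pull (Obj.lift (x + x') t) a = C.pull (Obj.lift x t) a + C.pull (Obj.lift x' t) a

lemma act_prodMap (f : X ⟶ Y) (g : Z ⟶ T) (b : C.A (Y.prod T)) (a : C.A X) :
    C.act (C.pull (prodMap f g) b) a = C.pull g (C.act b (C.push f a)) := by
  have e : C.pull (prodMap f g) b = C.pull (prodMap f (𝟙 Z)) (C.pull (prodMap (𝟙 Y) g) b) := by
    rw [← C.pull_comp]
    congr 1
    congr 1
    apply prod_ext <;> simp
  rw [e, ← act_push, pull_act2]

lemma act_MM_prim (hp : Point1 θ) (hc : Cube θ) (hθ : C.Deg 1 θ) (hE : E.dim = 1)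
    {γ : C.A (E.prod Y)} (hγ : Prim C E Y γ) : C.act (MM θ Y) γ = γ := by
  have h1 : dg C E = eC θ (fst E E) + eC θ (snd E E) + pE θ := by
    have h2 := graph1 hp (𝟙 E)
    rw [Category.comp_id, eC_sub hc] at h2
    rw [pE, ← sub_eq_add_neg, ← h2]
    rfl
  have h3 := act_dg C γ
  have h4 : dg C (E.prod Y) = tens C (eC θ (fst E E)) (dg C Y) +
      tens C (eC θ (snd E E)) (dg C Y) + MM θ Y := by
    rw [← tens_dg, h1, MM]
    simp only [tens, map_add, add_mul]
  have h5 : C.act (tens C (eC θ (fst E E)) (dg C Y)) γ = 0 := by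
    have e1 : tens C (eC θ (fst E E)) (dg C Y) =
        C.pull (prodMap (snd E Y) (snd E Y)) (dg C Y) *
          C.pull (fst (E.prod Y) (E.prod Y)) (C.pull (fst E Y) θ) := by
      rw [tens, pull_eC, prodMap_fst, ch_comm C, eC, C.pull_comp]
    have e2 : C.pull (fst E Y) θ * γ = 0 := by
      refine hC.gr_top _ _ _ (C.mul_mem (C.pull_mem _ hθ) hγ.1) ?_
      rw [dim_prod, hE]
      push_cast
      linarith
    rw [e1, C.act_apply, mul_assoc, ← map_mul, e2, map_zero, mul_zero, map_zero]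
  have h6 : C.act (tens C (eC θ (snd E E)) (dg C Y)) γ = 0 := by
    have e1 : tens C (eC θ (snd E E)) (dg C Y) =
        C.pull (prodMap (snd E Y) (snd E Y)) (dg C Y) *
          C.pull (snd (E.prod Y) (E.prod Y)) (C.pull (fst E Y) θ) := by
      rw [tens, pull_eC, prodMap_snd, ch_comm C, eC, C.pull_comp]
    have e2 : C.act (C.pull (prodMap (snd E Y) (snd E Y)) (dg C Y)) γ = 0 := by
      rw [act_prodMap, hγ.2, C.act_map_zero, map_zero]
    rw [C.act_apply] at e2
    rw [e1, C.act_apply, ch_comm C (C.pull (prodMap (snd E Y) (snd E Y)) (dg C Y)), mul_assoc,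
      C.proj_left, e2, mul_zero]
  rw [h4, C.act_add, C.act_add, h5, h6, zero_add, zero_add] at h3
  exact h3

lemma addCl_of_act (hc : Cube θ) {γ : C.A (E.prod Y)} (h : C.act (MM θ Y) γ = γ) :
    AddCl γ := by
  intro W x x' t
  rw [← h, pull_act, pull_act, pull_act, ← map_add, ← add_mul]
  congr 2
  rw [vl_MM, vl_MM, vl_MM]
  simp only [comp_lift, lift_fst, lift_snd, comp_add']
  rw [bC_add_right hc, neg_add, add_mul]

lemma biAdd_ext {a : C.A (E.prod Y)} {b : C.A (E.prod Y')} (ha : AddCl a) (hb : AddCl b) :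
    BiAdd (C.ext a b) where
  left x x' t z := by rw [vl_ext, vl_ext, vl_ext, ha, add_mul]
  right z y y' s := by rw [vl_ext, vl_ext, vl_ext, hb, mul_add]

/-- The exterior product is antisymmetric in the points of `E`. -/
lemma antisymm (hp : Point1 θ) (hc : Cube θ) (hE : E.dim = 1) {a : C.A (E.prod Y)}
    {b : C.A (E.prod Y')} (ha : AddCl a) (hb : AddCl b) (ma : a ∈ C.gr (E.prod Y) (Y.dim + 1))
    (mb : b ∈ C.gr (E.prod Y') (Y'.dim + 1)) (x y : W ⟶ E) (t : W ⟶ Y) (s : W ⟶ Y') :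
    vl C (C.ext a b) (Obj.lift x t) (Obj.lift y s) =
      -vl C (C.ext a b) (Obj.lift y t) (Obj.lift x s) := by
  obtain ⟨κ, hκ, h1⟩ := sym_part hp hc (biAdd_ext ha hb)
  have h2 : κ ∈ C.gr (E.prod (Y.prod Y')) ((Y.dim + 1) + (Y'.dim + 1)) := by
    rw [hκ]
    exact C.pull_mem _ (ext_mem' ma mb)
  have h3 : C.push (snd E (Y.prod Y')) κ = 0 := by
    have h4 := C.push_mem (snd E (Y.prod Y')) h2
    refine hC.gr_top _ _ _ h4 ?_
    rw [dim_prod E, dim_prod, hE]
    push_cast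
    linarith
  have h5 := h1 x y t s
  rw [h3, map_zero, mul_zero] at h5
  exact eq_neg_of_add_eq_zero_left h5

/-- The complex multiplication can be moved from one factor of the exterior product to the
other. -/
lemma move (hp : Point1 θ) (hc : Cube θ) (hE : E.dim = 1) (u : E ⟶ E) {a : C.A (E.prod Y)}
    {b : C.A (E.prod Y')} (ha : AddCl a) (hb : AddCl b) (ma : a ∈ C.gr (E.prod Y) (Y.dim + 1))
    (mb : b ∈ C.gr (E.prod Y') (Y'.dim + 1))
    (hu : AddCl (C.pull (prodMap u (𝟙 Y)) a)) :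
    C.ext (C.pull (prodMap u (𝟙 Y)) a) b = C.ext a (C.pull (prodMap u (𝟙 Y')) b) := by
  apply ext_vl
  intro W p q
  obtain ⟨x, t, rfl⟩ := exists_lift p
  obtain ⟨y, s, rfl⟩ := exists_lift q
  have e1 : ∀ {Y : 𝒱.Obj} (x : W ⟶ E) (t : W ⟶ Y),
      Obj.lift x t ≫ prodMap u (𝟙 Y) = Obj.lift (x ≫ u) t := by
    intro Y x t
    apply prod_ext <;> simp
  have e2 : vl C (C.ext (C.pull (prodMap u (𝟙 Y)) a) b) (Obj.lift y t) (Obj.lift x s) =
      vl C (C.ext a b) (Obj.lift (y ≫ u) t) (Obj.lift x s) := by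
    rw [vl_ext, vl_ext, ← C.pull_comp, e1]
  have e3 : vl C (C.ext a (C.pull (prodMap u (𝟙 Y')) b)) (Obj.lift x t) (Obj.lift y s) =
      vl C (C.ext a b) (Obj.lift x t) (Obj.lift (y ≫ u) s) := by
    rw [vl_ext, vl_ext, ← C.pull_comp, e1]
  rw [antisymm hp hc hE hu hb (C.pull_mem _ ma) mb, e2, e3, antisymm hp hc hE ha hb ma mb, neg_neg]

end Pool.Agent.Helper867_EX
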