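import Pool.Agent.Helper867_CM.Stmt

/-!
# Definitions for the statement on external products
-/

open CategoryTheory AlgebraicGeometry

universe u v w

namespace Pool.Agent.Helper867_EX.St

open Pool.Agent.H914 Pool.Agent.H914.VarClass Pool.Agent.H914.VarClass.Obj Pool.Agent.W492.BB
  Pool.Agent.TH133 Pool.Agent.Y152.AS Pool.Agent.Helper867_CM.St

variable {k : Type u} [Field k] {𝒱 : VarClass k} {C : TheoryData.{u, v, 0} 𝒱 ℚ}
  {E D D' S T Y : 𝒱.Obj} {K : Type w} [Field K] {H : WeilTheoryData.{u, v, w} C K}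

/-- `E` is a curve, and `γ` is a zero-cycle on `E × Y` whose push-forward to `Y` is zero, for example
`γ = (x - x') × y` with points `x`, `x'` of `E` and `y` of `Y`. -/
def OverZero (C : TheoryData.{u, v, 0} 𝒱 ℚ) (E Y : 𝒱.Obj) (γ : C.A (E.prod Y)) : Prop :=
  C.Deg (Y.dim + 1) γ ∧ C.down (snd E Y) γ = 0

/-- The correspondence `U = N⁻¹ b ∘ (u × 1)^* ∘ ᵗb` of the surface `S` dominated by `E × D`. -/
noncomputable def cmul (u : E ⟶ E) (b : C.A ((E.prod D).prod S)) (N : ℚ) : C.A (S.prod S) :=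
  N⁻¹ • C.comp (tp C b) (C.comp (ux C u D) b)

/-- `γ × X_* β = γ × X'_* β` for all `β ∈ F^2 CH_0(S)_ℚ` and all zero-cycles `γ` of the following two
kinds: `γ` is a zero-cycle on `E × Y`, `Y` any variety, with push-forward zero on `Y`; or
`γ ∈ F^2 CH_0(R)_ℚ`, where the surface `R` is dominated by a product `E × D`. -/
def SameProducts (E : 𝒱.Obj) (X X' : C.A (S.prod T)) : Prop :=
  ∀ β : C.A S, InAlbKer C β →
    (∀ (Y : 𝒱.Obj) (γ : C.A (E.prod Y)), OverZero C E Y γ →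
      C.ext γ (C.act X β) = C.ext γ (C.act X' β)) ∧
    ∀ (D R : 𝒱.Obj) (b : C.A ((E.prod D).prod R)) (N : ℚ), IsDom b N →
      ∀ γ : C.A R, InAlbKer C γ → C.ext γ (C.act X β) = C.ext γ (C.act X' β)

/-- `(V_* α) × β = α × V'_* β` for all `α ∈ F^2 CH_0(S)_ℚ` and `β ∈ F^2 CH_0(T)_ℚ`. -/
def Balanced (V : C.A (S.prod S)) (V' : C.A (T.prod T)) : Prop :=
  ∀ α : C.A S, InAlbKer C α → ∀ β : C.A T, InAlbKer C β →
    C.ext (C.act V α) β = C.ext α (C.act V' β)

/-- `(u × 1)^* γ × β = γ × U_* β` for all `β ∈ F^2 CH_0(T)_ℚ` and all zero-cycles `γ` on `E × Y`, `Y` any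
variety, with push-forward zero on `Y`. -/
def BalancedE (u : E ⟶ E) (U : C.A (T.prod T)) : Prop :=
  ∀ (Y : 𝒱.Obj) (γ : C.A (E.prod Y)), OverZero C E Y γ → ∀ β : C.A T, InAlbKer C β →
    C.ext (C.up (prodMap u (𝟙 Y)) γ) β = C.ext γ (C.act U β)

/-- The correspondences `X` and `X'` from `S` to `T` induce the same map on the holomorphic
two-forms. -/
def SameForms (F : ∀ S : 𝒱.Obj, H.A S → Prop) (X X' : C.A (S.prod T)) : Prop :=
  Ann F (X - X')

end Pool.Agent.Helper867_EX.St
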