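import Pool.Agent.Helper867_EX.Main
import Pool.Agent.Helper867_EX.Stmt

/-!
# External products: the theorem
-/

set_option autoImplicit false

open CategoryTheory AlgebraicGeometry

universe u v w

namespace Pool.Agent.Helper867_EX

open Pool.Agent.H914 Pool.Agent.H914.VarClass Pool.Agent.H914.VarClass.Obj Pool.Agent.W492.BB
  Pool.Agent.W550.Corr Pool.Agent.TH133 Pool.Agent.Y152.AS Pool.Agent.TH829.Kim
  Pool.Agent.R904.CM Pool.Agent.Helper867_CM Pool.Agent.Helper867_CM.St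
  Pool.Agent.Helper867_EX.St

set_option linter.unusedSectionVars false

variable {k : Type u} [Field k] {𝒱 : VarClass k} {C : TheoryData.{u, v, 0} 𝒱 ℚ}
  [hC : IsChowProj C] {K : Type w} [Field K]

lemma setup_of {E : 𝒱.Obj} [GroupLaw E] {u : E ⟶ E} {d : ℕ} (hE : CMCurve C E u d) :
    ∃ θ : C.A E, Setup θ u d := by
  obtain ⟨hdim, hpos, hhom, hsq, θ, hθ, hp', hc', hu⟩ := hE
  have hc : ∀ (X : 𝒱.Obj) (x y : X ⟶ E),
      C.up (x + y) θ + C.up (x - y) θ = (2 : ℚ) • C.up x θ + (2 : ℚ) • C.up y θ :=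
    fun X x y => (hc' X x y (x - y) (sub_add_cancel x y)).trans (smul_add _ _ _)
  have hp : ∀ X : 𝒱.Obj, C.down (Obj.lift (0 : X ⟶ E) (𝟙 X)) 1 = C.up (fst E X) θ :=
    fun X => hp' X 0 (add_zero 0)
  exact ⟨θ, hdim, hpos, hhom, hsq, hθ, hp, hc, hu⟩

lemma act_one {S : 𝒱.Obj} (α : C.A S) : C.act (one C S) α = α := by
  rw [one, C.act_cograph, C.pull_id]

theorem ex_main (H : WeilTheoryData.{u, v, w} C K) [IsWeilProj H]
    (hPic : Picard H) (E : 𝒱.Obj) [GroupLaw E] (u : E ⟶ E) (d : ℕ)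
    (hE : CMCurve C E u d) (F : ∀ S : 𝒱.Obj, H.A S → Prop) (hF : IsForms F u)
    (D₀ D₁ S₀ S₁ : 𝒱.Obj) (b₀ : C.A ((E.prod D₀).prod S₀)) (b₁ : C.A ((E.prod D₁).prod S₁))
    (N₀ N₁ : ℚ) (hb₀ : IsDom b₀ N₀) (hb₁ : IsDom b₁ N₁) :
    (∀ X X' : C.A (S₀.prod S₁), C.Deg 2 X → C.Deg 2 X' → SameForms F X X' →
      SameProducts E X X') ∧
    BalancedE u (cmul u b₁ N₁) ∧ Balanced (cmul u b₀ N₀) (cmul u b₁ N₁) ∧
    ∀ (a c : ℚ) (V₀ : C.A (S₀.prod S₀)) (V₁ : C.A (S₁.prod S₁)),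
      IsScalar F a c (cmul u b₀ N₀) V₀ → IsScalar F a c (cmul u b₁ N₁) V₁ → Balanced V₀ V₁ := by
  obtain ⟨θ, h⟩ := setup_of hE
  replace hPic : PicardOfProducts H := hPic
  set ν := annNull hF h.dim_eq with hν
  set s₀ := toDom hb₀ with hs₀
  set s₁ := toDom hb₁ with hs₁
  have cm0 : cmul u b₀ N₀ = s₀.cm u := rfl
  have cm1 : cmul u b₁ N₁ = s₁.cm u := rfl
  have main : ∀ {S T D D' : 𝒱.Obj} {b : C.A ((E.prod D).prod S)} {b' : C.A ((E.prod D').prod T)}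
      {N N' : ℚ} (hb : IsDom b N) (hb' : IsDom b' N') {n : C.A (S.prod T)}, C.Deg 2 n →
      Ann F n → ∀ {β : C.A S}, InAlbKer C β → ∀ {Y : 𝒱.Obj} {γ : C.A (E.prod Y)},
        AddZ γ → C.ext γ (C.act n β) = 0 := by
    intro S T D D' b b' N N' hb hb' n hn hd β hβ Y γ hγ
    exact kill_S ν (toDom hb) (toDom hb') h hPic hn hd (inAlbKer_iff.1 hβ) hγ
  have main2 : ∀ {S T R D D' D'' : 𝒱.Obj} {b : C.A ((E.prod D).prod S)}
      {b' : C.A ((E.prod D').prod T)} {b'' : C.A ((E.prod D'').prod R)}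
      {N N' N'' : ℚ} (hb : IsDom b N) (hb' : IsDom b' N') (hb'' : IsDom b'' N'')
      {n : C.A (S.prod T)}, C.Deg 2 n →
      Ann F n → ∀ {β : C.A S}, InAlbKer C β → ∀ {γ : C.A R},
        InAlbKer C γ → C.ext γ (C.act n β) = 0 := by
    intro S T R D D' D'' b b' b'' N N' N'' hb hb' hb'' n hn hd β hβ γ hγ
    exact kill_SS ν (toDom hb) (toDom hb') (toDom hb'') h hPic hn hd (inAlbKer_iff.1 hβ)
      (inAlbKer_iff.1 hγ)
  have bal : Balanced (cmul u b₀ N₀) (cmul u b₁ N₁) := by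
    intro α hα β hβ
    rw [cm0, cm1]
    exact balanced s₀ s₁ h (inAlbKer_iff.1 hα) (inAlbKer_iff.1 hβ)
  refine ⟨fun X X' hX hX' hXX β hβ => ⟨fun Y γ hγ => ?_, fun D R b N hb γ hγ => ?_⟩,
    fun Y γ hγ β hβ => ?_, bal, fun a c V₀ V₁ hV₀ hV₁ α hα β hβ => ?_⟩
  · have h1 := main hb₀ hb₁ (Submodule.sub_mem _ hX hX') hXX hβ (addZ_of_prim h hγ)
    rw [C.act_sub, sub_eq_add_neg, ext_add_right', ext_neg_right', ← sub_eq_add_neg,
      sub_eq_zero] at h1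
    exact h1
  · have h1 := main2 hb₀ hb₁ hb (Submodule.sub_mem _ hX hX') hXX hβ hγ
    rw [C.act_sub, sub_eq_add_neg, ext_add_right', ext_neg_right', ← sub_eq_add_neg,
      sub_eq_zero] at h1
    exact h1
  · have zγ := addZ_of_prim h hγ
    have h1 := zγ.move h (addZ_of_albKer h s₁.dim_D (s₁.back h (inAlbKer_iff.1 hβ)))
    have h2 := right_op s₁.b h1
    rw [s₁.dom' (inAlbKer_iff.1 hβ), ext_smul_right'] at h2
    rw [cm1, s₁.act_cm, ext_smul_right', ← h2, smul_smul, inv_mul_cancel₀ s₁.ne, one_smul]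
  · have e0 : C.act V₀ α = a • α + c • C.act (cmul u b₀ N₀) α +
        C.act (V₀ - a • one C S₀ - c • cmul u b₀ N₀) α := by
      rw [C.act_sub, C.act_sub, act_smul, act_smul, act_one]
      abel
    have e1 : C.act V₁ β = a • β + c • C.act (cmul u b₁ N₁) β +
        C.act (V₁ - a • one C S₁ - c • cmul u b₁ N₁) β := by
      rw [C.act_sub, C.act_sub, act_smul, act_smul, act_one]
      abel
    have m0 : C.Deg 2 (V₀ - a • one C S₀ - c • cmul u b₀ N₀) := by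
      refine Submodule.sub_mem _ (Submodule.sub_mem _ hV₀.1 (Submodule.smul_mem _ _ ?_))
        (Submodule.smul_mem _ _ (s₀.cm_mem h))
      have := Y148.BB.cograph_mem (C := C) (𝟙 S₀)
      rwa [s₀.dim_S] at this
    have m1 : C.Deg 2 (V₁ - a • one C S₁ - c • cmul u b₁ N₁) := by
      refine Submodule.sub_mem _ (Submodule.sub_mem _ hV₁.1 (Submodule.smul_mem _ _ ?_))
        (Submodule.smul_mem _ _ (s₁.cm_mem h))
      have := Y148.BB.cograph_mem (C := C) (𝟙 S₁)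
      rwa [s₁.dim_S] at this
    have k0 := main2 hb₀ hb₀ hb₁ m0 hV₀.2 hα hβ
    have k1 := main2 hb₁ hb₁ hb₀ m1 hV₁.2 hβ hα
    rw [e0, e1, ext_add_left', ext_add_left', ext_add_right', ext_add_right', ext_smul_left',
      ext_smul_left', ext_smul_right', ext_smul_right', bal α hα β hβ, k1, ext_swap_zero k0]

end Pool.Agent.Helper867_EX
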