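import Pool.Agent.Helper867_EX.Stmt
import Mathlib.GroupTheory.Perm.Sign

/-!
# Voisin's alternating sums: definitions
-/

open CategoryTheory AlgebraicGeometry

universe u v w

namespace Pool.Agent.Helper867_EX.St

open Pool.Agent.H914 Pool.Agent.H914.VarClass Pool.Agent.H914.VarClass.Obj Pool.Agent.W492.BB
  Pool.Agent.TH133 Pool.Agent.Y152.AS Pool.Agent.Helper867_CM.St

variable {k : Type u} [Field k] {𝒱 : VarClass k} {C : TheoryData.{u, v, 0} 𝒱 ℚ}
  {E D S T W : 𝒱.Obj} {K : Type w} [Field K] {H : WeilTheoryData.{u, v, w} C K}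

/-- The class `∑_σ sign(σ) s_1^* α_{σ(1)} ⋯ s_n^* α_{σ(n)}` on `W`, where `s_i : W ⟶ S`. For `W = S^n` and
the projections `s_i` this is the alternating sum of the exterior products
`α_{σ(1)} × ⋯ × α_{σ(n)}`. -/
noncomputable def altSum {n : ℕ} (α : Fin n → C.A S) (s : Fin n → (W ⟶ S)) : C.A W :=
  ∑ σ : Equiv.Perm (Fin n), (Equiv.Perm.sign σ : ℤ) •
    (List.ofFn fun i => C.up (s i) (α (σ i))).prod

/-- The alternating sum is zero. -/
def AltZero {n : ℕ} (α : Fin n → C.A S) (s : Fin n → (W ⟶ S)) : Prop := altSum α s = 0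

/-- The zero-cycles `X_* β` on `S`, where `X ∈ CH^2(T × S)_ℚ`, `[X]^* = 0` on the holomorphic two-forms,
`β ∈ F^2 CH_0(T)_ℚ`, and the surface `T` is dominated by a product of `E` with a curve. The
conjecture of Bloch predicts that they are zero. -/
def IsNullImage (E : 𝒱.Obj) (F : ∀ S : 𝒱.Obj, H.A S → Prop) (ω : C.A S) : Prop :=
  ∃ (D T : 𝒱.Obj) (b : C.A ((E.prod D).prod T)) (N : ℚ) (X : C.A (T.prod S)) (β : C.A T),
    IsDom b N ∧ C.Deg 2 X ∧ Ann F X ∧ InAlbKer C β ∧ ω = C.act X β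

/-- The span of the zero-cycles `X_* β` with `[X]^* = 0` on the holomorphic two-forms. -/
def nullSpan (S E : 𝒱.Obj) (F : ∀ S : 𝒱.Obj, H.A S → Prop) : Submodule ℚ (C.A S) :=
  Submodule.span ℚ {ω | IsNullImage E F ω}

/-- One of the entries of `α` lies in `nullSpan`. -/
def HasNullEntry (E : 𝒱.Obj) (F : ∀ S : 𝒱.Obj, H.A S → Prop) {n : ℕ} (α : Fin n → C.A S) : Prop :=
  ∃ j, α j ∈ nullSpan S E F

/-- The list `α` with the entry `α_i` replaced by `V_* α_i`. -/
noncomputable def applyAt {n : ℕ} (V : C.A (S.prod S)) (i : Fin n) (α : Fin n → C.A S) :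
    Fin n → C.A S := Function.update α i (C.act V (α i))

/-- The cycles `α_1, ..., α_n` are dependent modulo `nullSpan`: one of them is the sum of the `V_{i *}`
of the others and an element of `nullSpan`, where the self-correspondences `V_i` of `S` act on the
holomorphic two-forms like `a_i + c_i U`, `a_i` and `c_i` rational. -/
def Dependent (E : 𝒱.Obj) (F : ∀ S : 𝒱.Obj, H.A S → Prop) (U : C.A (S.prod S)) {n : ℕ}
    (α : Fin n → C.A S) : Prop :=
  ∃ (j : Fin n) (V : Fin n → C.A (S.prod S)) (a c : Fin n → ℚ) (ω : C.A S),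
    (∀ i, IsScalar F (a i) (c i) U (V i)) ∧ ω ∈ nullSpan S E F ∧
      α j = ∑ i ∈ Finset.univ.erase j, C.act (V i) (α i) + ω

end Pool.Agent.Helper867_EX.St
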