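import Pool.Agent.Helper867_EX.Final
import Pool.Agent.Helper867_EX.VoiDefs

/-!
# Voisin's alternating sums
-/

set_option autoImplicit false

open CategoryTheory AlgebraicGeometry

universe u v w

namespace Pool.Agent.Helper867_EX

open Pool.Agent.H914 Pool.Agent.H914.VarClass Pool.Agent.H914.VarClass.Obj Pool.Agent.W492.BB
  Pool.Agent.W550.Corr Pool.Agent.TH133 Pool.Agent.Y152.AS Pool.Agent.TH829.Kim
  Pool.Agent.R904.CM Pool.Agent.Helper867_CM Pool.Agent.Helper867_CM.St
  Pool.Agent.Helper867_EX.St

set_option linter.unusedSectionVars false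

section det

variable {R : Type*} [CommRing R] {n : ℕ}

/-- The products of the entries of a column choice, with two entries taken out. -/
lemma prod_two (f : Fin n → R) {i j : Fin n} (hij : i ≠ j) :
    ∏ c, f c = f i * f j * ∏ c ∈ (Finset.univ.erase i).erase j, f c := by
  rw [← Finset.mul_prod_erase Finset.univ f (Finset.mem_univ i),
    ← Finset.mul_prod_erase (Finset.univ.erase i) f (Finset.mem_erase.2 ⟨hij.symm,
      Finset.mem_univ j⟩), mul_assoc]

/-- Two matrices which differ in two columns only, with equal products of entries of these columns in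
different rows, have equal determinants. -/
lemma det_eq_of_two {M M' : Matrix (Fin n) (Fin n) R} {i j : Fin n} (hij : i ≠ j)
    (h : ∀ r s, r ≠ s → M r i * M s j = M' r i * M' s j)
    (h' : ∀ r c, c ≠ i → c ≠ j → M r c = M' r c) : M.det = M'.det := by
  rw [Matrix.det_apply, Matrix.det_apply]
  refine Finset.sum_congr rfl fun σ _ => ?_
  congr 1
  rw [prod_two (fun c => M (σ c) c) hij, prod_two (fun c => M' (σ c) c) hij]
  congr 1
  · exact h _ _ (fun e => hij (σ.injective e))
  · refine Finset.prod_congr rfl fun c hc => ?_
    rw [Finset.mem_erase, Finset.mem_erase] at hc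
    exact h' _ _ hc.2.1 hc.1

/-- A matrix with a column whose products with the entries of the other columns vanish. -/
lemma det_zero_of_col {M : Matrix (Fin n) (Fin n) R} (hn : 2 ≤ n) (j : Fin n)
    (h : ∀ r s c, r ≠ s → c ≠ j → M r j * M s c = 0) : M.det = 0 := by
  obtain ⟨c, hc⟩ : ∃ c : Fin n, c ≠ j := by
    have : Nontrivial (Fin n) := Fin.nontrivial_iff_two_le.2 hn
    exact exists_ne j
  rw [Matrix.det_apply]
  refine Finset.sum_eq_zero fun σ _ => ?_
  rw [prod_two (fun c => M (σ c) c) hc.symm, h _ _ c (fun e => hc.symm (σ.injective e)) hc,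
    zero_mul, smul_zero]

end det

variable {k : Type u} [Field k] {𝒱 : VarClass k} {C : TheoryData.{u, v, 0} 𝒱 ℚ}
  [hC : IsChowProj C] {S T W : 𝒱.Obj} {n : ℕ}

lemma altSum_eq (α : Fin n → C.A S) (s : Fin n → (W ⟶ S)) :
    altSum α s = (Matrix.of fun i j => C.pull (s i) (α j)).det := by
  rw [← Matrix.det_transpose, Matrix.det_apply, altSum]
  refine Finset.sum_congr rfl fun σ _ => ?_
  rw [List.prod_ofFn, Units.smul_def]
  rfl

lemma pull_of_ext {a b a' b' : C.A S} (h : C.ext a b = C.ext a' b') (x y : W ⟶ S) :
    C.pull x a * C.pull y b = C.pull x a' * C.pull y b' := by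
  rw [← vl_ext, ← vl_ext, h]

/-- Moving an operator from one entry to another one. -/
lemma altSum_move {V : C.A (S.prod S)} (hV : Balanced V V) {α : Fin n → C.A S}
    (hα : ∀ i, InAlbKer C (α i)) (s : Fin n → (W ⟶ S)) (i j : Fin n) :
    altSum (applyAt V i α) s = altSum (applyAt V j α) s := by
  by_cases hij : i = j
  · rw [hij]
  rw [altSum_eq, altSum_eq]
  refine det_eq_of_two hij (fun r t _ => ?_) (fun r c hi hj => ?_)
  · simp only [Matrix.of_apply, applyAt]
    rw [Function.update_self, Function.update_of_ne (Ne.symm hij), Function.update_of_ne hij,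
      Function.update_self]
    exact pull_of_ext (hV _ (hα i) _ (hα j)) _ _
  · simp only [Matrix.of_apply, applyAt]
    rw [Function.update_of_ne hi, Function.update_of_ne hj]

/-- Entries which are killed by exterior products. -/
lemma altSum_zero (hn : 2 ≤ n) {α : Fin n → C.A S} (s : Fin n → (W ⟶ S)) (j : Fin n)
    (h : ∀ i, i ≠ j → C.ext (α j) (α i) = 0) : altSum α s = 0 := by
  rw [altSum_eq]
  refine det_zero_of_col hn j fun r t c _ hc => ?_
  simp only [Matrix.of_apply]
  rw [← vl_ext, h c hc, R904.Voi.vl, map_zero]

lemma altSum_same {α : Fin n → C.A S} (s : Fin n → (W ⟶ S)) {i j : Fin n} (hij : i ≠ j)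
    (h : α i = α j) : altSum α s = 0 := by
  rw [altSum_eq]
  exact Matrix.det_zero_of_column_eq hij fun r => by simp only [Matrix.of_apply, h]

lemma altSum_update_add (α : Fin n → C.A S) (s : Fin n → (W ⟶ S)) (j : Fin n) (x y : C.A S) :
    altSum (Function.update α j (x + y)) s = altSum (Function.update α j x) s +
      altSum (Function.update α j y) s := by
  have e : ∀ z : C.A S, (Matrix.of fun i c => C.pull (s i) (Function.update α j z c)) =
      (Matrix.of fun i c => C.pull (s i) (α c)).updateCol j (fun i => C.pull (s i) z) := by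
    intro z
    ext r c
    by_cases hc : c = j
    · subst hc
      simp
    · simp [hc]
  rw [altSum_eq, altSum_eq, altSum_eq, e, e, e, ← Matrix.det_updateCol_add]
  congr 2
  funext i
  exact map_add _ _ _

/-- The alternating sum as a linear map in the entry `j`. -/
noncomputable def altLin (α : Fin n → C.A S) (s : Fin n → (W ⟶ S)) (j : Fin n) :
    C.A S →+ C.A W :=
  AddMonoidHom.mk' (fun x => altSum (Function.update α j x) s) (altSum_update_add α s j)

lemma altSum_act_other {V : C.A (S.prod S)} (hV : Balanced V V) {α : Fin n → C.A S}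
    (hα : ∀ i, InAlbKer C (α i)) (s : Fin n → (W ⟶ S)) {i j : Fin n} (hij : i ≠ j) :
    altSum (Function.update α j (C.act V (α i))) s = 0 := by
  set α' := Function.update α j (α i) with hα'
  have hα2 : ∀ c, InAlbKer C (α' c) := by
    intro c
    by_cases hc : c = j
    · rw [hα', hc, Function.update_self]
      exact hα i
    · rw [hα', Function.update_of_ne hc]
      exact hα c
  have e1 : Function.update α j (C.act V (α i)) = applyAt V j α' := by
    rw [applyAt, hα', Function.update_self, Function.update_idem]
  have e2 : α' i = α' j := by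
    rw [hα', Function.update_self, Function.update_of_ne hij]
  -- the exchange of the two columns
  have h1 := altSum_move hV hα2 s i j
  have h2 : altSum (applyAt V i α') s = -altSum (applyAt V j α') s := by
    rw [altSum_eq, altSum_eq]
    have e3 : (Matrix.of fun r c => C.pull (s r) (applyAt V i α' c)) =
        (Matrix.of fun r c => C.pull (s r) (applyAt V j α' c)).submatrix id
          (Equiv.swap i j) := by
      ext r c
      simp only [Matrix.of_apply, Matrix.submatrix_apply, id, applyAt]
      by_cases hci : c = i
      · rw [hci, Function.update_self, Equiv.swap_apply_left, Function.update_self, e2]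
      · by_cases hcj : c = j
        · rw [hcj, Function.update_of_ne hij.symm, Equiv.swap_apply_right,
            Function.update_of_ne hij, e2]
        · rw [Function.update_of_ne hci, Equiv.swap_apply_of_ne_of_ne hci hcj,
            Function.update_of_ne hcj]
    rw [e3, Matrix.det_permute', Equiv.Perm.sign_swap hij]
    simp
  rw [e1]
  have h3 : (2 : ℚ) • altSum (applyAt V j α') s = 0 := by
    rw [two_smul]
    nth_rw 1 [← h1]
    rw [h2]
    exact neg_add_cancel _
  exact (smul_eq_zero.1 h3).resolve_left two_ne_zero

end Pool.Agent.Helper867_EX
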