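import Pool.Agent.Helper867_EX.Voi

/-!
# Voisin's alternating sums: the theorem
-/

set_option autoImplicit false

open CategoryTheory AlgebraicGeometry

universe u v w

namespace Pool.Agent.Helper867_EX

open Pool.Agent.H914 Pool.Agent.H914.VarClass Pool.Agent.H914.VarClass.Obj Pool.Agent.W492.BB
  Pool.Agent.W550.Corr Pool.Agent.TH133 Pool.Agent.Y152.AS Pool.Agent.TH829.Kim
  Pool.Agent.R904.CM Pool.Agent.Helper867_CM Pool.Agent.Helper867_CM.St
  Pool.Agent.Helper867_EX.St

set_option linter.unusedSectionVars false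

variable {k : Type u} [Field k] {𝒱 : VarClass k} {C : TheoryData.{u, v, 0} 𝒱 ℚ}
  [hC : IsChowProj C] {K : Type w} [Field K]

theorem voi_main (H : WeilTheoryData.{u, v, w} C K) [IsWeilProj H]
    (hPic : Picard H) (E : 𝒱.Obj) [GroupLaw E] (u : E ⟶ E) (d : ℕ)
    (hE : CMCurve C E u d) (F : ∀ S : 𝒱.Obj, H.A S → Prop) (hF : IsForms F u)
    (D S : 𝒱.Obj) (b : C.A ((E.prod D).prod S)) (N : ℚ) (hb : IsDom b N)
    (n : ℕ) (hn : 2 ≤ n) (α : Fin n → C.A S) (hα : ∀ i, InAlbKer C (α i)) (W : 𝒱.Obj)
    (s : Fin n → (W ⟶ S)) :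
    (∀ (a c : ℚ) (V : C.A (S.prod S)), IsScalar F a c (cmul u b N) V →
      ∀ i j, altSum (applyAt V i α) s = altSum (applyAt V j α) s) ∧
    (HasNullEntry E F α → AltZero α s) ∧
    (Dependent E F (cmul u b N) α → AltZero α s) := by
  have bal := (ex_main H hPic E u d hE F hF D D S S b b N N hb hb).2.2.2
  obtain ⟨θ, h⟩ := setup_of hE
  replace hPic : PicardOfProducts H := hPic
  set ν := annNull hF h.dim_eq with hν
  have kill : ∀ ω ∈ nullSpan S E F, ∀ β : C.A S, InAlbKer C β → C.ext ω β = 0 := by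
    intro ω hω β hβ
    induction hω using Submodule.span_induction with
    | mem ω hω =>
      obtain ⟨D', T, b', N', X, γ, hb', hX, hA, hγ, rfl⟩ := hω
      exact ext_swap_zero (kill_SS ν (toDom hb') (toDom hb) (toDom hb) h hPic hX hA
        (inAlbKer_iff.1 hγ) (inAlbKer_iff.1 hβ))
    | zero => exact ext_zero_left β
    | add x y _ _ hx hy => rw [ext_add_left', hx, hy, add_zero]
    | smul q x _ hx => rw [ext_smul_left', hx, smul_zero]
  refine ⟨fun a c V hV i j => altSum_move (bal a c V V hV hV) hα s i j, ?_, ?_⟩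
  · rintro ⟨j, hj⟩
    exact altSum_zero hn s j fun i _ => kill _ hj _ (hα i)
  · rintro ⟨j, V, a, c, ω, hV, hω, hj⟩
    rw [AltZero]
    have e1 : altSum α s = altLin α s j (α j) := by
      change _ = altSum (Function.update α j (α j)) s
      rw [Function.update_eq_self]
    rw [e1, hj, map_add, map_sum]
    have e2 : altLin α s j ω = 0 := by
      change altSum (Function.update α j ω) s = 0
      refine altSum_zero hn s j fun i hi => ?_
      rw [Function.update_self, Function.update_of_ne hi]
      exact kill _ hω _ (hα i)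
    rw [e2, add_zero]
    refine Finset.sum_eq_zero fun i hi => ?_
    change altSum (Function.update α j (C.act (V i) (α i))) s = 0
    exact altSum_act_other (bal _ _ _ _ (hV i) (hV i)) hα s (Finset.ne_of_mem_erase hi)

end Pool.Agent.Helper867_EX
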